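import Pool.Agent.R773.HN.Fin3

/-!
# Infinite twists modulo the smallest normal subgroup of the Hamiltonian homeomorphisms of the ball

In dimension two the infinite twists (Hamiltonian homeomorphisms which rotate the circle of radius
`s` about the centre by an angle growing fast as `s → 0`) are the elements which were used to show
that the group is not simple. We consider the twists of the ball of dimension `2n` with profile
`G(|z_1|², …, |z_n|²)`, with no condition on the growth of `G` at the origin.

Definitions: `Pool/Agent/R773/HN/Defs2.lean`, `Pool/Agent/R773/HN/Stm2.lean` (twists),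
`Pool/Agent/R773/HN/Defs.lean`, `Pool/Agent/Y453/HB/Stm.lean` (`HamHomeo n`, the same as in the
frozen statement S13311). Parts of the proof: `Tw1.lean` by helper332, `Tw2.lean` by helper157,
`Qr.lean` by helper699, and those of `SmallestNormalSubgroup.lean`.
-/

set_option autoImplicit false

namespace Pool.Agent.Results.MP_68f289_gt.InfiniteTwists

open Pool.Agent.R773.HN

/-- Let `n ≥ 1` and `0 < r < 1`. For every profile `G` the twist `T_G` is a Hamiltonian
homeomorphism, and it is congruent to the twist of the average `avg G` of `G` over the permutations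
of the coordinates modulo every nontrivial normal subgroup of `HamHomeo n`. In particular `T_G`
belongs to every nontrivial normal subgroup if `avg G = 0`, for instance, for `i ≠ j` and any
function `h` smooth on `(0, ∞)` and vanishing for large `s`, however fast it grows as `s → 0`,
if `G(a) = h(a_1² + ⋯ + a_n²) (a_i - a_j)`. -/
theorem result (n : ℕ) (hn : 0 < n) (r : ℝ) (hr : 0 < r) (hr1 : r < 1) :
    (∀ G ∈ Prof n r, ∃ T T' : HamHomeo n, IsTwist G T ∧ IsTwist (avg G) T' ∧
      ∀ N : Subgroup (HamHomeo n), N.Normal → N ≠ ⊥ → T * T'⁻¹ ∈ N) ∧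
    (∀ G ∈ Prof n r, avg G = 0 → ∃ T : HamHomeo n, IsTwist G T ∧
      ∀ N : Subgroup (HamHomeo n), N.Normal → N ≠ ⊥ → T ∈ N) ∧
    ∀ (i j : Fin n) (h : ℝ → ℝ), ContDiffOn ℝ ((⊤ : ℕ∞) : WithTop ℕ∞) h (Set.Ioi 0) →
      (∀ s, r ^ 4 / n ≤ s → h s = 0) →
      ∃ T : HamHomeo n, IsTwist (fun a => h (∑ k, a k ^ 2) * (a i - a j)) T ∧
        ∀ N : Subgroup (HamHomeo n), N.Normal → N ≠ ⊥ → T ∈ N :=
  ⟨fun _ hG => twist_main' hCo hn hr hr1 hG, fun _ hG h0 => twist_zero' hCo hn hr hr1 hG h0,
    fun _ _ h hh h0 => twist_zero' hCo hn hr hr1 (ex_prof hh h0) (ex_avg h)⟩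

end Pool.Agent.Results.MP_68f289_gt.InfiniteTwists
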