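import Pool.Agent.R773.HN.Fin3
import Pool.Agent.R773.HN.Defs3

/-!
# Normal subgroups of the groups between `Ham_c(B)` and the Hamiltonian homeomorphisms of the ball

Definitions: `Pool/Agent/R773/HN/Defs.lean`, `Pool/Agent/R773/HN/Defs3.lean`, and
`Pool/Agent/Y453/HB/Stm.lean` (the same as in the frozen statement S13311): `E n` is `ℝ^{2n}`,
`IsHam u`: `u` is the time one map of the flow of a smooth time dependent Hamiltonian with compact
support in the open unit ball `B`, `HamBar n`: the group of compactly supported Hamiltonian
homeomorphisms of `B` (generated by the homeomorphisms with support in a compact `K ⊆ B` which are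
uniform limits of elements of `Ham_c(B)` supported in `K`).

Parts of the proof (folder `Pool/Agent/R773/HN`): `Flow.lean` by helper991, `Trans.lean` by
helper789, `Cover.lean` by helper938, `Bd.lean` by helper451, `Step.lean` by helper787, `Trot.lean`
by helper971, `Tflow.lean` by helper953, `Frag1.lean` by helper491,
`Frag.lean` by helper415, `Comm3.lean` by helper757, and the library of the project HB (helper453
and others).
-/

set_option autoImplicit false

open scoped commutatorElement

namespace Pool.Agent.Results.MP_68f289_gt.SmallestNormalSubgroup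

open Pool.Agent.Y453.HB (E Q)
open Pool.Agent.R773.HN

/-- Let `n ≥ 1` and let `Γ` be any group of homeomorphisms with `Ham_c(B) ≤ Γ ≤ HamHomeo(B)`, for
instance `HamHomeo(B)` itself, the group of hameomorphisms `Hameo(B)`, or `Ham_c(B)`. Then `Γ` has
a smallest nontrivial normal subgroup `S`, and

* `S` is a simple group,
* `S`, and therefore every nontrivial normal subgroup of `Γ`, is dense in `HamHomeo(B)` with respect
  to uniform convergence,
* `S` contains the commutators of all elements of `Γ` supported in a compact set which some element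
  of `Γ` displaces from itself, and the commutators of elements of `Ham_c(B)`,
* `S` is the normal closure of the set of commutators of elements supported in any given closed
  ball of radius `r < 1 / 2` in `B`,
* if `0 < ε ≤ 1 / 100` and `F` is the normal subgroup of `Γ` generated by the elements supported in
  balls of radius at most `ε`, then `S` is the commutator subgroup `[F, F]`, and `Γ` is simple if
  and only if `F = Γ` and `Γ` is perfect. -/
theorem result (n : ℕ) (hn : 0 < n) (Γ : Subgroup (Homeos n)) (hΓ : IsIntermediate Γ) :
    ∃ S : Subgroup Γ, S.Normal ∧ IsSimpleGroup S ∧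
      (∀ N : Subgroup Γ, N.Normal → N ≠ ⊥ → S ≤ N) ∧ DenseInHam (S : Set Γ) ∧
      (∀ (A : Set (E n)) (f g κ : Γ), IsCompact A → Displaces κ A → SupportedIn A f →
        SupportedIn A g → ⁅f, g⁆ ∈ S) ∧
      (∀ f g : Γ, IsHamDiffeo f.1 → IsHamDiffeo g.1 → ⁅f, g⁆ ∈ S) ∧
      (∀ (z : E n) (r : ℝ), 0 < r → r < 1 / 2 → √(Q z) + r < 1 →
        S = Subgroup.normalClosure (Comms Γ (CBall z r))) ∧
      ∀ ε : ℝ, 0 < ε → ε ≤ 1 / 100 → S = ⁅FragGroup Γ ε, FragGroup Γ ε⁆ ∧
        (IsSimpleGroup Γ ↔ FragGroup Γ ε = ⊤ ∧ commutator Γ = ⊤) :=
  main_of' hSm hCo hn Γ hΓ.1 hΓ.2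

end Pool.Agent.Results.MP_68f289_gt.SmallestNormalSubgroup
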